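import Pool.Agent.K3h16.MI.Stm

/-! Brick TMU of project MI (helper16): invariance of `kdet (-2)` under a conformal map. -/

set_option autoImplicit false
set_option linter.all false

open MeasureTheory Set Filter Topology

namespace Pool.Agent.K3h79.MI

open Pool.Agent.K3h16.MI

theorem t_TMU : S_KD → S_CONF2 → S_CONF3 → S_TMU := by
  intro hKD h2 h3 m n T ρ U hT x hx y hy hxy e₁ e₂ f₁ f₂ he₁ he₂ hf₁ hf₂ hs₁ hs₂
  have hρx := hT.pos x hx
  have hρy := hT.pos y hy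
  have key : ∀ z ∈ U, ∀ e : Fin m → E n, Orthonormal ℝ e →
      √ (pairing (fun i => fderiv ℝ T z (e i)) (fun i => fderiv ℝ T z (e i))) = ρ z ^ m := by
    intro z hz e he
    have h1 : (Matrix.of fun i j : Fin m => inner ℝ (fderiv ℝ T z (e i)) (fderiv ℝ T z (e j))) =
        (ρ z ^ 2) • (1 : Matrix (Fin m) (Fin m) ℝ) := by
      ext i j
      rw [Matrix.of_apply, h2 n T ρ U hT z hz, orthonormal_iff_ite.1 he, Matrix.smul_apply,
        Matrix.one_apply, smul_eq_mul]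
    rw [pairing, h1, Matrix.det_smul, Matrix.det_one, mul_one, Fintype.card_fin, ← pow_mul,
      mul_comm 2 m, pow_mul, Real.sqrt_sq (pow_nonneg (hT.pos z hz).le m)]
  obtain ⟨_, hk⟩ := hKD m n f₁ f₂ _ _ hf₁ hf₂ hs₁ hs₂
  have h4 := hk (-2) (T x - T y)
  rw [key x hx e₁ he₁, key y hy e₂ he₂] at h4
  have h5 : kdet (-2) (fun i => fderiv ℝ T x (e₁ i)) (fun i => fderiv ℝ T y (e₂ i)) (T x - T y) =
      (ρ x * ρ y) ^ m * kdet (-2) e₁ e₂ (x - y) := by
    have h6 : (Matrix.of fun i j : Fin m =>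
        inner ℝ (fderiv ℝ T x (e₁ i)) (fderiv ℝ T y (e₂ j)) +
          (-2) * (inner ℝ (fderiv ℝ T x (e₁ i)) (T x - T y) *
            inner ℝ (T x - T y) (fderiv ℝ T y (e₂ j)) / ‖T x - T y‖ ^ 2)) =
        (ρ x * ρ y) • (Matrix.of fun i j : Fin m => inner ℝ (e₁ i) (e₂ j) +
          (-2) * (inner ℝ (e₁ i) (x - y) * inner ℝ (x - y) (e₂ j) / ‖x - y‖ ^ 2)) := by
      ext i j
      rw [Matrix.of_apply, h3 n T ρ U hT x hx y hy hxy, Matrix.smul_apply, Matrix.of_apply,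
        smul_eq_mul]
    rw [kdet, h6, Matrix.det_smul, Fintype.card_fin, kdet]
  rw [h5, mul_pow] at h4
  exact (mul_left_cancel₀ (mul_ne_zero (pow_ne_zero _ hρx.ne') (pow_ne_zero _ hρy.ne')) h4).symm

end Pool.Agent.K3h79.MI
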